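import Mathlib

/-!
# Minimizers of perimeter plus volume without closed representative

On the Euclidean line, with a locally finite measure of full support, there is a bounded open
interval `Ω` with `m (∂Ω) = 0` such that both functionals `M_λ` and `M̃_λ` have a minimizer (an open
interval) that has no closed representative.
-/

open MeasureTheory Filter Topology Metric Set
open scoped ENNReal NNReal

namespace Pool.Agent.Results.MP_fa2b2f_an.NoClosedRepresentative

section Defs

variable {X : Type*} [MetricSpace X] [MeasurableSpace X]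

/-- `Lip (f|_S)`, the least Lipschitz constant of `f` on `S` (with `0 / 0 = 0`). -/
noncomputable def lipOn (f : X → ℝ) (S : Set X) : ℝ≥0∞ :=
  ⨆ y ∈ S, ⨆ z ∈ S, edist (f y) (f z) / edist y z

/-- The asymptotic slope `lip_a f x = inf_{r > 0} Lip (f|_{B_r(x)})`. -/
noncomputable def lipa (f : X → ℝ) (x : X) : ℝ≥0∞ :=
  ⨅ r : ℝ, ⨅ _ : 0 < r, lipOn f (ball x r)

/-- Convergence in `L¹_loc(m)`: every point has a neighbourhood (a ball) on which there is
`L¹`-convergence. -/
def TendstoL1loc (m : Measure X) (f : ℕ → X → ℝ) (g : X → ℝ) : Prop :=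
  ∀ x : X, ∃ r : ℝ, 0 < r ∧
    Tendsto (fun n => ∫⁻ y in ball x r, ‖f n y - g y‖ₑ ∂m) atTop (𝓝 0)

/-- The perimeter `Per E = |Dχ_E|(X)`: the infimum of `liminf ∫ lip_a (f n) dm` over all sequences
of locally Lipschitz functions converging to `χ_E` in `L¹_loc(m)`. -/
noncomputable def perimeter (m : Measure X) (E : Set X) : ℝ≥0∞ :=
  ⨅ f : ℕ → X → ℝ, ⨅ _ : ∀ n, LocallyLipschitz (f n),
    ⨅ _ : TendstoL1loc m f (E.indicator fun _ => (1 : ℝ)),
      liminf (fun n => ∫⁻ x, lipa (f n) x ∂m) atTop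

/-- `M_λ(A) = Per A + λ m(Ω ∖ A)`. -/
noncomputable def M (m : Measure X) (lam : ℝ) (Ω A : Set X) : ℝ≥0∞ :=
  perimeter m A + ENNReal.ofReal lam * m (Ω \ A)

/-- `M̃_λ(A) = Per A + λ m(Ω Δ A)`. -/
noncomputable def M' (m : Measure X) (lam : ℝ) (Ω A : Set X) : ℝ≥0∞ :=
  perimeter m A + ENNReal.ofReal lam * m ((Ω \ A) ∪ (A \ Ω))

/-- `E` minimizes `M_λ` among the Borel subsets of `Ω`. -/
def IsMinimizer (m : Measure X) (lam : ℝ) (Ω E : Set X) : Prop :=
  MeasurableSet E ∧ E ⊆ Ω ∧ ∀ A, MeasurableSet A → A ⊆ Ω → M m lam Ω E ≤ M m lam Ω A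

/-- `E` minimizes `M̃_λ` among all Borel sets. -/
def IsMinimizer' (m : Measure X) (lam : ℝ) (Ω E : Set X) : Prop :=
  MeasurableSet E ∧ ∀ A, MeasurableSet A → M' m lam Ω E ≤ M' m lam Ω A

end Defs

/-! ### One-dimensional calculus -/

theorem lipOn_le {f : ℝ → ℝ} {K : ℝ≥0} (hf : LipschitzWith K f) (S : Set ℝ) :
    lipOn f S ≤ K := by
  unfold lipOn
  refine iSup₂_le fun y _ => iSup₂_le fun z _ => ?_
  exact ENNReal.div_le_of_le_mul (hf y z)

theorem lipa_le {f : ℝ → ℝ} {K : ℝ≥0} (hf : LipschitzWith K f) (x : ℝ) : lipa f x ≤ K :=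
  (iInf₂_le 1 one_pos).trans (lipOn_le hf _)

theorem lipa_eq_zero {f : ℝ → ℝ} {x : ℝ} {U : Set ℝ} (hU : IsOpen U) (hx : x ∈ U) {c : ℝ}
    (hf : ∀ y ∈ U, f y = c) : lipa f x = 0 := by
  obtain ⟨r, hr, hrU⟩ := Metric.isOpen_iff.1 hU x hx
  refine le_antisymm ?_ bot_le
  refine (iInf₂_le r hr).trans ?_
  unfold lipOn
  refine iSup₂_le fun y hy => iSup₂_le fun z hz => ?_
  rw [hf y (hrU hy), hf z (hrU hz), edist_self, ENNReal.zero_div]

theorem enorm_deriv_le_lipa (f : ℝ → ℝ) (x : ℝ) : ‖deriv f x‖ₑ ≤ lipa f x := by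
  by_cases hd : DifferentiableAt ℝ f x
  swap
  · rw [deriv_zero_of_not_differentiableAt hd, enorm_zero]
    exact bot_le
  unfold lipa
  refine le_iInf₂ fun r hr => ?_
  have hs := hasDerivAt_iff_tendsto_slope.1 hd.hasDerivAt
  have h1 : Tendsto (fun y => ‖slope f x y‖ₑ) (𝓝[≠] x) (𝓝 ‖deriv f x‖ₑ) :=
    (continuous_enorm.tendsto _).comp hs
  refine le_of_tendsto h1 ?_
  have hball : ∀ᶠ y in 𝓝[≠] x, y ∈ ball x r :=
    mem_nhdsWithin_of_mem_nhds (ball_mem_nhds x hr)
  filter_upwards [hball, self_mem_nhdsWithin] with y hy hyx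
  have hyx' : y ≠ x := hyx
  have h2 : ‖slope f x y‖ₑ = edist (f y) (f x) / edist y x := by
    rw [slope_def_field, edist_eq_enorm_sub, edist_eq_enorm_sub, div_eq_mul_inv, enorm_mul,
      enorm_inv (sub_ne_zero.2 hyx'), div_eq_mul_inv]
  rw [h2]
  unfold lipOn
  exact le_iSup₂_of_le y hy (le_iSup₂_of_le x (mem_ball_self hr) le_rfl)

theorem edist_le_lintegral_lipa {f : ℝ → ℝ} (hf : LocallyLipschitz f) {a b : ℝ} (hab : a ≤ b) :
    ‖f b - f a‖ₑ ≤ ∫⁻ x in Ioc a b, lipa f x := by
  obtain ⟨K, hK⟩ := LocallyLipschitzOn.exists_lipschitzOnWith_of_compact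
    (isCompact_uIcc (a := a) (b := b)) (hf.locallyLipschitzOn)
  have hac := hK.absolutelyContinuousOnInterval
  rw [← hac.integral_deriv_eq_sub, intervalIntegral.integral_of_le hab]
  refine (enorm_integral_le_lintegral_enorm _).trans ?_
  exact lintegral_mono fun x => enorm_deriv_le_lipa f x

/-- from `L¹_loc` convergence to convergence at suitable points -/
theorem exists_points {m : Measure ℝ} {f : ℕ → ℝ → ℝ} {g : ℝ → ℝ} (hconv : TendstoL1loc m f g)
    {S : Set ℝ} (hS : MeasurableSet S) (hmS : m S ≠ 0) {c : ℝ} (hg : ∀ x ∈ S, g x = c)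
    {ε : ℝ} (hε : 0 < ε) :
    ∀ᶠ n in atTop, ∃ x ∈ S, |f n x - c| < ε := by
  obtain ⟨x₀, -, hx₀⟩ := exists_mem_forall_mem_nhdsWithin_pos_measure hmS
  obtain ⟨r, hr, hlim⟩ := hconv x₀
  have hpos : 0 < m (S ∩ ball x₀ r) :=
    hx₀ _ (inter_mem self_mem_nhdsWithin (mem_nhdsWithin_of_mem_nhds (ball_mem_nhds x₀ hr)))
  have hεpos : 0 < ENNReal.ofReal ε * m (S ∩ ball x₀ r) :=
    ENNReal.mul_pos (ENNReal.ofReal_pos.2 hε).ne' hpos.ne'
  filter_upwards [hlim.eventually (gt_mem_nhds hεpos)] with n hn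
  by_contra hcon
  push Not at hcon
  refine absurd hn (not_lt.2 ?_)
  calc ENNReal.ofReal ε * m (S ∩ ball x₀ r)
      = ∫⁻ _ in S ∩ ball x₀ r, ENNReal.ofReal ε ∂m := by rw [setLIntegral_const]
    _ ≤ ∫⁻ y in S ∩ ball x₀ r, ‖f n y - g y‖ₑ ∂m := by
        refine setLIntegral_mono' (hS.inter measurableSet_ball) fun y hy => ?_
        rw [hg y hy.1, Real.enorm_eq_ofReal_abs]
        exact ENNReal.ofReal_le_ofReal (hcon y hy.1)
    _ ≤ ∫⁻ y in ball x₀ r, ‖f n y - g y‖ₑ ∂m :=
        lintegral_mono_set inter_subset_right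

/-! ### The measure -/

/-- the density on `(0, ∞)` -/
noncomputable def w (x : ℝ) : ℝ≥0∞ := ENNReal.ofReal (min 1 (min |x| |1 - x|))

theorem measurable_w : Measurable w := by
  unfold w
  fun_prop

/-- Lebesgue measure on `(-∞, 0)`, an atom of mass `c` at `0`, and the density `w` on `(0, ∞)` -/
noncomputable def mu (c : ℝ) : Measure ℝ :=
  volume.restrict (Iio 0) + ENNReal.ofReal c • Measure.dirac 0
    + (volume.restrict (Ioi 0)).withDensity w

theorem mu_apply (c : ℝ) {S : Set ℝ} (hS : MeasurableSet S) :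
    mu c S = volume (S ∩ Iio 0) + ENNReal.ofReal c * S.indicator 1 0
      + ∫⁻ x in S ∩ Ioi 0, w x := by
  unfold mu
  rw [Measure.add_apply, Measure.add_apply, Measure.restrict_apply hS, Measure.smul_apply,
    Measure.dirac_apply' _ hS, withDensity_apply _ hS, Measure.restrict_restrict hS, smul_eq_mul]

theorem w_le_one (x : ℝ) : w x ≤ 1 := by
  unfold w
  rw [← ENNReal.ofReal_one]
  exact ENNReal.ofReal_le_ofReal (min_le_left _ _)

theorem mu_le_of_subset_Ioi (c : ℝ) {S : Set ℝ} (hS : MeasurableSet S) (h0 : S ⊆ Ioi 0) :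
    mu c S = ∫⁻ x in S, w x := by
  rw [mu_apply c hS]
  have h1 : S ∩ Iio 0 = ∅ := by
    ext x
    simp only [mem_inter_iff, mem_Iio, mem_empty_iff_false, iff_false, not_and, not_lt]
    intro hx
    exact (mem_Ioi.1 (h0 hx)).le
  have h2 : S.indicator (1 : ℝ → ℝ≥0∞) 0 = 0 :=
    indicator_of_notMem (fun h => lt_irrefl _ (mem_Ioi.1 (h0 h))) _
  rw [h1, h2, measure_empty, mul_zero, zero_add, zero_add, inter_eq_left.2 h0]

theorem mu_le_volume {c : ℝ} {S : Set ℝ} (hS : MeasurableSet S) (h0 : S ⊆ Ioi 0) :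
    mu c S ≤ volume S := by
  rw [mu_le_of_subset_Ioi c hS h0]
  calc ∫⁻ x in S, w x ≤ ∫⁻ _ in S, 1 := lintegral_mono fun x => w_le_one x
    _ = volume S := by rw [setLIntegral_const, one_mul]

theorem mu_bounded (c : ℝ) {B : Set ℝ} (hB : Bornology.IsBounded B) : mu c B < ∞ := by
  obtain ⟨R, hR⟩ := hB.subset_closedBall 0
  refine (measure_mono hR).trans_lt ?_
  rw [mu_apply c measurableSet_closedBall]
  have hvol : volume (closedBall (0 : ℝ) R) < ∞ := measure_closedBall_lt_top
  refine ENNReal.add_lt_top.2 ⟨ENNReal.add_lt_top.2 ⟨?_, ?_⟩, ?_⟩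
  · exact (measure_mono inter_subset_left).trans_lt hvol
  · refine ENNReal.mul_lt_top ENNReal.ofReal_lt_top ?_
    unfold indicator
    split_ifs <;> simp
  · calc ∫⁻ x in closedBall 0 R ∩ Ioi 0, w x ≤ ∫⁻ _ in closedBall (0 : ℝ) R ∩ Ioi 0, 1 :=
          lintegral_mono fun x => w_le_one x
      _ = volume (closedBall (0 : ℝ) R ∩ Ioi 0) := by rw [setLIntegral_const, one_mul]
      _ < ∞ := (measure_mono inter_subset_left).trans_lt hvol

theorem w_pos {x : ℝ} (h0 : x ≠ 0) (h1 : x ≠ 1) : 0 < w x := by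
  unfold w
  rw [ENNReal.ofReal_pos]
  refine lt_min one_pos (lt_min (abs_pos.2 h0) (abs_pos.2 (sub_ne_zero.2 h1.symm)))

theorem mu_pos (c : ℝ) {U : Set ℝ} (hU : IsOpen U) (hne : U.Nonempty) : 0 < mu c U := by
  obtain ⟨x, hx⟩ := hne
  rw [mu_apply c hU.measurableSet]
  rcases lt_or_ge x 0 with hx0 | hx0
  · have h1 : 0 < volume (U ∩ Iio 0) := (hU.inter isOpen_Iio).measure_pos _ ⟨x, hx, hx0⟩
    exact h1.trans_le (le_self_add.trans le_self_add)
  · -- a point of U in (0, ∞)
    have h1 : (U ∩ Ioi 0).Nonempty := by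
      obtain ⟨r, hr, hrU⟩ := Metric.isOpen_iff.1 hU x hx
      refine ⟨x + r / 2, hrU ?_, ?_⟩
      · rw [mem_ball, Real.dist_eq, add_sub_cancel_left, abs_of_pos (by linarith)]
        linarith
      · rw [mem_Ioi]; linarith
    have h2 : 0 < volume (U ∩ Ioi 0) := (hU.inter isOpen_Ioi).measure_pos _ h1
    have h3 : 0 < ∫⁻ x in U ∩ Ioi 0, w x := by
      rw [lintegral_pos_iff_support measurable_w]
      rw [Measure.restrict_apply' (hU.inter isOpen_Ioi).measurableSet]
      have h4 : (U ∩ Ioi 0) \ {1} ⊆ Function.support w ∩ (U ∩ Ioi 0) := by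
        rintro y ⟨hy, hy1⟩
        exact ⟨(w_pos (ne_of_gt hy.2) hy1).ne', hy⟩
      refine lt_of_lt_of_le ?_ (measure_mono h4)
      rwa [measure_sdiff_null (by simp)]
    exact h3.trans_le le_add_self

/-! ### The perimeter of `(0, 1)` vanishes -/

/-- cut-off functions -/
noncomputable def cut (s : ℝ) (x : ℝ) : ℝ := max 0 (min 1 (min ((x - s) / s) ((1 - s - x) / s)))

theorem cut_lipschitz {s : ℝ} (hs : 0 < s) : LipschitzWith (Real.toNNReal (1 / s)) (cut s) := by
  have h1 : LipschitzWith (Real.toNNReal (1 / s)) fun x : ℝ => (x - s) / s := by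
    refine LipschitzWith.of_dist_le_mul fun x y => ?_
    rw [Real.dist_eq, Real.dist_eq, Real.coe_toNNReal _ (by positivity)]
    have : (x - s) / s - (y - s) / s = 1 / s * (x - y) := by ring
    rw [this, abs_mul, abs_of_pos (by positivity)]
  have h2 : LipschitzWith (Real.toNNReal (1 / s)) fun x : ℝ => (1 - s - x) / s := by
    refine LipschitzWith.of_dist_le_mul fun x y => ?_
    rw [Real.dist_eq, Real.dist_eq, Real.coe_toNNReal _ (by positivity)]
    have : (1 - s - x) / s - (1 - s - y) / s = -(1 / s * (x - y)) := by ring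
    rw [this, abs_neg, abs_mul, abs_of_pos (by positivity)]
  have h3 := (h1.min h2)
  rw [max_self] at h3
  exact (h3.const_min 1).const_max 0

theorem cut_left {s x : ℝ} (hs : 0 < s) (hx : x ≤ s) : cut s x = 0 := by
  unfold cut
  refine max_eq_left ?_
  refine (min_le_right _ _).trans ((min_le_left _ _).trans ?_)
  exact div_nonpos_of_nonpos_of_nonneg (by linarith) hs.le

theorem cut_right {s x : ℝ} (hs : 0 < s) (hx : 1 - s ≤ x) : cut s x = 0 := by
  unfold cut
  refine max_eq_left ?_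
  refine (min_le_right _ _).trans ((min_le_right _ _).trans ?_)
  exact div_nonpos_of_nonpos_of_nonneg (by linarith) hs.le

theorem cut_mid {s x : ℝ} (hs : 0 < s) (h1 : 2 * s ≤ x) (h2 : x ≤ 1 - 2 * s) : cut s x = 1 := by
  unfold cut
  have h3 : 1 ≤ (x - s) / s := by rw [le_div_iff₀ hs]; linarith
  have h4 : 1 ≤ (1 - s - x) / s := by rw [le_div_iff₀ hs]; linarith
  rw [min_eq_left (le_min h3 h4), max_eq_right zero_le_one]

theorem cut_mem (s x : ℝ) : 0 ≤ cut s x ∧ cut s x ≤ 1 := by
  unfold cut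
  exact ⟨le_max_left _ _, max_le zero_le_one (min_le_left _ _)⟩

theorem lintegral_lipa_cut (c : ℝ) {s : ℝ} (hs : 0 < s) (hs4 : s < 1 / 4) :
    ∫⁻ x, lipa (cut s) x ∂(mu c) ≤ ENNReal.ofReal (4 * s) := by
  set T : Set ℝ := Icc s (2 * s) ∪ Icc (1 - 2 * s) (1 - s) with hT
  have hTm : MeasurableSet T := measurableSet_Icc.union measurableSet_Icc
  have hT0 : T ⊆ Ioi 0 := by
    rintro x (hx | hx)
    · exact mem_Ioi.2 (hs.trans_le hx.1)
    · exact mem_Ioi.2 (by linarith [hx.1])
  have hle : ∀ x, lipa (cut s) x ≤ T.indicator (fun _ => ENNReal.ofReal (1 / s)) x := by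
    intro x
    by_cases hx : x ∈ T
    · rw [indicator_of_mem hx]
      exact lipa_le (cut_lipschitz hs) x
    · rw [indicator_of_notMem hx]
      rw [hT, mem_union, mem_Icc, mem_Icc, not_or, not_and, not_and, not_le, not_le] at hx
      have h0 : lipa (cut s) x = 0 := by
        rcases lt_or_ge x s with h | h
        · exact lipa_eq_zero isOpen_Iio (mem_Iio.2 h) fun y hy => cut_left hs (mem_Iio.1 hy).le
        · have h2 := hx.1 h
          rcases lt_or_ge x (1 - 2 * s) with h3 | h3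
          · exact lipa_eq_zero isOpen_Ioo (mem_Ioo.2 ⟨h2, h3⟩) fun y hy =>
              cut_mid hs (mem_Ioo.1 hy).1.le (mem_Ioo.1 hy).2.le
          · have h4 := hx.2 h3
            exact lipa_eq_zero isOpen_Ioi (mem_Ioi.2 h4) fun y hy => cut_right hs (mem_Ioi.1 hy).le
      rw [h0]
  have hw : ∀ x ∈ T, w x ≤ ENNReal.ofReal (2 * s) := by
    rintro x (hx | hx)
    · refine ENNReal.ofReal_le_ofReal ((min_le_right _ _).trans ((min_le_left _ _).trans ?_))
      rw [abs_of_pos (by linarith [hx.1])]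
      exact hx.2
    · refine ENNReal.ofReal_le_ofReal ((min_le_right _ _).trans ((min_le_right _ _).trans ?_))
      rw [abs_of_pos (by linarith [hx.2])]
      linarith [hx.1]
  have hvol : volume T ≤ ENNReal.ofReal (2 * s) := by
    refine (measure_union_le _ _).trans ?_
    rw [Real.volume_Icc, Real.volume_Icc, ← ENNReal.ofReal_add (by linarith) (by linarith)]
    exact ENNReal.ofReal_le_ofReal (by linarith)
  calc ∫⁻ x, lipa (cut s) x ∂(mu c)
      ≤ ∫⁻ x, T.indicator (fun _ => ENNReal.ofReal (1 / s)) x ∂(mu c) := lintegral_mono hle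
    _ = ENNReal.ofReal (1 / s) * mu c T := by
        rw [lintegral_indicator hTm, setLIntegral_const]
    _ = ENNReal.ofReal (1 / s) * ∫⁻ x in T, w x := by rw [mu_le_of_subset_Ioi c hTm hT0]
    _ ≤ ENNReal.ofReal (1 / s) * ∫⁻ _ in T, ENNReal.ofReal (2 * s) := by
        gcongr 1
        exact setLIntegral_mono' hTm hw
    _ = ENNReal.ofReal (1 / s) * (ENNReal.ofReal (2 * s) * volume T) := by rw [setLIntegral_const]
    _ ≤ ENNReal.ofReal (1 / s) * (ENNReal.ofReal (2 * s) * ENNReal.ofReal (2 * s)) := by gcongr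
    _ = ENNReal.ofReal (4 * s) := by
        rw [← ENNReal.ofReal_mul (by positivity), ← ENNReal.ofReal_mul (by positivity)]
        congr 1
        field_simp
        ring

/-- the scales -/
noncomputable def sc (k : ℕ) : ℝ := 1 / ((k : ℝ) + 5)

theorem sc_pos (k : ℕ) : 0 < sc k := by unfold sc; positivity

theorem sc_lt (k : ℕ) : sc k < 1 / 4 := by
  unfold sc
  rw [div_lt_div_iff_of_pos_left one_pos (by positivity) (by norm_num)]
  have : (0 : ℝ) ≤ k := Nat.cast_nonneg k
  linarith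

theorem sc_tendsto : Tendsto (fun k => ENNReal.ofReal (4 * sc k)) atTop (𝓝 0) := by
  have h1 : Tendsto sc atTop (𝓝 0) := by
    unfold sc
    have h := tendsto_const_div_atTop_nhds_zero_nat (1 : ℝ)
    have h2 := h.comp (tendsto_add_atTop_nat 5)
    refine h2.congr fun k => ?_
    simp [Function.comp]
  have h3 := (h1.const_mul 4)
  rw [mul_zero] at h3
  have h4 := (ENNReal.continuous_ofReal.tendsto 0).comp h3
  rw [ENNReal.ofReal_zero] at h4
  exact h4

theorem perimeter_Ioo (c : ℝ) : perimeter (mu c) (Ioo 0 1) = 0 := by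
  refine le_antisymm ?_ bot_le
  unfold perimeter
  have hL : ∀ n, LocallyLipschitz ((fun k => cut (sc k)) n) := fun n =>
    (cut_lipschitz (sc_pos n)).locallyLipschitz
  have hconv : TendstoL1loc (mu c) (fun k => cut (sc k))
      ((Ioo (0 : ℝ) 1).indicator fun _ => (1 : ℝ)) := by
    intro x
    refine ⟨1, one_pos, ?_⟩
    refine tendsto_of_tendsto_of_tendsto_of_le_of_le tendsto_const_nhds sc_tendsto
      (fun _ => bot_le) fun k => ?_
    beta_reduce
    have hs := sc_pos k
    have hs4 := sc_lt k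
    set s := sc k with hsdef
    set D : Set ℝ := Ioc 0 (2 * s) ∪ Ico (1 - 2 * s) 1 with hD
    have hDm : MeasurableSet D := measurableSet_Ioc.union measurableSet_Ico
    have hD0 : D ⊆ Ioi 0 := by
      rintro y (hy | hy)
      · exact mem_Ioi.2 hy.1
      · exact mem_Ioi.2 (by linarith [hy.1])
    have hvol : volume D ≤ ENNReal.ofReal (4 * s) := by
      refine (measure_union_le _ _).trans ?_
      rw [Real.volume_Ioc, Real.volume_Ico, ← ENNReal.ofReal_add (by linarith) (by linarith)]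
      exact ENNReal.ofReal_le_ofReal (by linarith)
    calc ∫⁻ y in ball x 1, ‖cut s y - (Ioo (0 : ℝ) 1).indicator (fun _ => (1 : ℝ)) y‖ₑ ∂(mu c)
        ≤ ∫⁻ y, ‖cut s y - (Ioo (0 : ℝ) 1).indicator (fun _ => (1 : ℝ)) y‖ₑ ∂(mu c) :=
          setLIntegral_le_lintegral _ _
      _ ≤ ∫⁻ y, D.indicator (fun _ => (1 : ℝ≥0∞)) y ∂(mu c) := by
          refine lintegral_mono fun y => ?_
          beta_reduce
          by_cases hy : y ∈ D
          · rw [indicator_of_mem hy, Real.enorm_eq_ofReal_abs, ← ENNReal.ofReal_one]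
            refine ENNReal.ofReal_le_ofReal ?_
            obtain ⟨h1, h2⟩ := cut_mem s y
            have h3 : (0 : ℝ) ≤ (Ioo (0 : ℝ) 1).indicator (fun _ => (1 : ℝ)) y ∧
                (Ioo (0 : ℝ) 1).indicator (fun _ => (1 : ℝ)) y ≤ 1 := by
              by_cases hy : y ∈ Ioo (0 : ℝ) 1
              · rw [indicator_of_mem hy]; norm_num
              · rw [indicator_of_notMem hy]; norm_num
            rw [abs_le]
            constructor <;> linarith [h3.1, h3.2]
          · rw [indicator_of_notMem hy]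
            rw [hD, mem_union, mem_Ioc, mem_Ico, not_or, not_and, not_and, not_le, not_lt] at hy
            have h0 : cut s y = (Ioo (0 : ℝ) 1).indicator (fun _ => (1 : ℝ)) y := by
              rcases le_or_gt y 0 with h | h
              · rw [indicator_of_notMem (fun hh => absurd hh.1 (not_lt.2 h)),
                  cut_left hs (by linarith)]
              · have h2 := hy.1 h
                rcases lt_or_ge y (1 - 2 * s) with h3 | h3
                · rw [indicator_of_mem (show y ∈ Ioo (0 : ℝ) 1 from ⟨h, by linarith⟩),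
                    cut_mid hs h2.le h3.le]
                · have h4 := hy.2 h3
                  rw [indicator_of_notMem (fun hh => absurd hh.2 (not_lt.2 h4)),
                    cut_right hs (by linarith)]
            rw [h0, sub_self, enorm_zero]
      _ = mu c D := by rw [lintegral_indicator hDm, setLIntegral_const, one_mul]
      _ ≤ volume D := mu_le_volume hDm hD0
      _ ≤ ENNReal.ofReal (4 * s) := hvol
  refine (iInf₂_le_of_le (fun k => cut (sc k)) hL (iInf_le_of_le hconv ?_))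
  refine le_of_le_of_eq (liminf_le_liminf (Eventually.of_forall fun k => ?_)) sc_tendsto.liminf_eq
  exact lintegral_lipa_cut c (sc_pos k) (sc_lt k)

/-! ### The lower bound -/

theorem one_le_perimeter (c : ℝ) {A : Set ℝ} (hA : MeasurableSet A)
    (h1 : mu c (A ∩ Iic 0) ≠ 0) (h2 : volume (Iio 0 \ A) ≠ 0) : 1 ≤ perimeter (mu c) A := by
  unfold perimeter
  refine le_iInf fun f => le_iInf₂ fun hL hconv => ?_
  have h2' : mu c (Iio 0 \ A) ≠ 0 := by
    rw [mu_apply c (measurableSet_Iio.diff hA)]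
    intro h
    rw [add_eq_zero, add_eq_zero] at h
    refine h2 ?_
    have : Iio 0 \ A ∩ Iio 0 = Iio 0 \ A := by
      ext x; simp only [mem_inter_iff, Set.mem_sdiff, mem_Iio]; tauto
    rw [← this]
    exact h.1.1
  refine ENNReal.le_of_forall_pos_le_add fun ε hε _ => ?_
  have hε2 : (0 : ℝ) < ε / 2 := by positivity
  have e1 := exists_points hconv (hA.inter measurableSet_Iic) h1 (c := 1)
    (fun x hx => indicator_of_mem hx.1 _) hε2
  have e2 := exists_points hconv (measurableSet_Iio.diff hA) h2' (c := 0)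
    (fun x hx => indicator_of_notMem hx.2 _) hε2
  have key : ∀ᶠ n in atTop, 1 - (ε : ℝ≥0∞) ≤ ∫⁻ x, lipa (f n) x ∂(mu c) := by
    filter_upwards [e1, e2] with n ⟨x, hx, hxε⟩ ⟨y, hy, hyε⟩
    have hbound : ∀ a b : ℝ, a ≤ b → b ≤ 0 →
        ‖f n b - f n a‖ₑ ≤ ∫⁻ x, lipa (f n) x ∂(mu c) := by
      intro a b hab hb
      refine (edist_le_lintegral_lipa (hL n) hab).trans ?_
      have hae : (volume.restrict (Ioc a b)) = volume.restrict (Ioo a b) :=
        (restrict_Ioo_eq_restrict_Ioc).symm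
      rw [hae]
      calc ∫⁻ x in Ioo a b, lipa (f n) x ≤ ∫⁻ x in Iio 0, lipa (f n) x :=
            lintegral_mono_set fun x hx => mem_Iio.2 (hx.2.trans_le hb)
        _ ≤ ∫⁻ x, lipa (f n) x ∂(mu c) := by
            refine lintegral_mono' ?_ le_rfl
            unfold mu
            rw [add_assoc]
            exact Measure.le_add_right le_rfl
    have hfin : ‖f n x - f n y‖ₑ ≤ ∫⁻ x, lipa (f n) x ∂(mu c) := by
      rcases le_total x y with hxy | hxy
      · have := hbound x y hxy (mem_Iio.1 hy.1).le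
        rwa [← enorm_neg, neg_sub] at this
      · exact hbound y x hxy hx.2
    refine le_trans ?_ hfin
    rw [Real.enorm_eq_ofReal_abs]
    have h3 : 1 - (ε : ℝ) ≤ |f n x - f n y| := by
      rw [sub_zero] at hyε
      rw [abs_lt] at hxε hyε
      refine le_trans ?_ (le_abs_self _)
      linarith [hxε.1, hyε.2]
    calc (1 : ℝ≥0∞) - ε = ENNReal.ofReal (1 - (ε : ℝ)) := by
          rw [ENNReal.ofReal_sub _ (NNReal.coe_nonneg ε), ENNReal.ofReal_one,
            ENNReal.ofReal_coe_nnreal]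
      _ ≤ _ := ENNReal.ofReal_le_ofReal h3
  have h4 : 1 - (ε : ℝ≥0∞) ≤ liminf (fun n => ∫⁻ x, lipa (f n) x ∂(mu c)) atTop :=
    le_liminf_of_le (by isBoundedDefault) key
  exact tsub_le_iff_right.1 h4

/-! ### The main result -/

/-- **Main result.** For every `lam > 0` there are a Borel measure `m` on the Euclidean line,
finite on bounded sets and positive on nonempty open sets, a bounded domain `Ω` (a bounded open
interval) with `m (∂Ω) = 0` and an open interval `E` that minimizes both functionals `M_λ` (among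
the Borel subsets of `Ω`) and `M̃_λ` (among all Borel sets), while `m (E Δ C) > 0` for every closed
set `C`. -/
theorem result (lam : ℝ) (hlam : 0 < lam) :
    ∃ (m : Measure ℝ) (Ω E : Set ℝ),
      (∀ B : Set ℝ, Bornology.IsBounded B → m B < ∞) ∧
      (∀ U : Set ℝ, IsOpen U → U.Nonempty → 0 < m U) ∧
      IsOpen Ω ∧ IsConnected Ω ∧ Bornology.IsBounded Ω ∧ m (frontier Ω) = 0 ∧
      IsMinimizer m lam Ω E ∧ IsMinimizer' m lam Ω E ∧
      ∀ C : Set ℝ, IsClosed C → 0 < m ((E \ C) ∪ (C \ E)) := by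
  set a : ℝ := 1 / (2 * lam) with ha
  have ha0 : 0 < a := by positivity
  have hval : ENNReal.ofReal lam * (ENNReal.ofReal a + ENNReal.ofReal a) = 1 := by
    rw [← ENNReal.ofReal_add ha0.le ha0.le, ← ENNReal.ofReal_mul hlam.le, ← ENNReal.ofReal_one]
    congr 1
    rw [ha]
    field_simp
    ring
  have hΩE : Ioo (-a) 1 \ Ioo 0 1 = Ioc (-a) 0 := by
    ext x
    simp only [Set.mem_sdiff, mem_Ioo, mem_Ioc, not_and, not_lt]
    constructor
    · rintro ⟨⟨h1, h2⟩, h3⟩
      refine ⟨h1, ?_⟩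
      by_contra h
      exact absurd (h3 (not_le.1 h)) (not_le.2 h2)
    · rintro ⟨h1, h2⟩
      exact ⟨⟨h1, by linarith⟩, fun h3 => absurd h2 (not_le.2 h3)⟩
  have hmass : mu a (Ioc (-a) 0) = ENNReal.ofReal a + ENNReal.ofReal a := by
    rw [mu_apply a measurableSet_Ioc]
    have h1 : Ioc (-a) 0 ∩ Iio 0 = Ioo (-a) 0 := by
      ext x
      simp only [mem_inter_iff, mem_Ioc, mem_Iio, mem_Ioo]
      constructor
      · rintro ⟨⟨h1, -⟩, h2⟩; exact ⟨h1, h2⟩
      · rintro ⟨h1, h2⟩; exact ⟨⟨h1, h2.le⟩, h2⟩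
    have h2 : Ioc (-a) 0 ∩ Ioi 0 = ∅ := by
      ext x
      simp only [mem_inter_iff, mem_Ioc, mem_Ioi, mem_empty_iff_false, iff_false, not_and, not_lt]
      exact fun h => h.2
    rw [h1, h2, Real.volume_Ioo, indicator_of_mem (by constructor <;> linarith)]
    simp
  have hEval : perimeter (mu a) (Ioo 0 1) = 0 := perimeter_Ioo a
  -- value at the minimizer
  have hME : M (mu a) lam (Ioo (-a) 1) (Ioo 0 1) = 1 := by
    unfold M
    rw [hEval, hΩE, hmass, zero_add, hval]
  have hME' : M' (mu a) lam (Ioo (-a) 1) (Ioo 0 1) = 1 := by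
    unfold M'
    have h1 : Ioo (0 : ℝ) 1 \ Ioo (-a) 1 = ∅ := by
      ext x
      simp only [Set.mem_sdiff, mem_Ioo, mem_empty_iff_false, iff_false, not_and]
      rintro ⟨h1, h2⟩
      intro h3
      exact absurd h2 (h3 (by linarith))
    rw [hEval, hΩE, h1, union_empty, hmass, zero_add, hval]
  -- the cost of missing the left half
  have hcost : ∀ A : Set ℝ, MeasurableSet A → mu a (A ∩ Iic 0) = 0 →
      1 ≤ ENNReal.ofReal lam * mu a (Ioo (-a) 1 \ A) := by
    intro A hA h0
    rw [← hval, ← hmass]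
    gcongr 1
    calc mu a (Ioc (-a) 0) ≤ mu a ((Ioo (-a) 1 \ A) ∪ (A ∩ Iic 0)) := by
          refine measure_mono fun x hx => ?_
          by_cases hxA : x ∈ A
          · exact Or.inr ⟨hxA, hx.2⟩
          · exact Or.inl ⟨⟨hx.1, by linarith [hx.2]⟩, hxA⟩
      _ ≤ mu a (Ioo (-a) 1 \ A) + mu a (A ∩ Iic 0) := measure_union_le _ _
      _ = mu a (Ioo (-a) 1 \ A) := by rw [h0, add_zero]
  refine ⟨mu a, Ioo (-a) 1, Ioo 0 1, fun B hB => mu_bounded a hB, fun U hU hne => mu_pos a hU hne,
    isOpen_Ioo, isConnected_Ioo (by linarith), isBounded_Ioo _ _, ?_,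
    ⟨measurableSet_Ioo, Ioo_subset_Ioo (by linarith) le_rfl, ?_⟩,
    ⟨measurableSet_Ioo, ?_⟩, ?_⟩
  · -- boundary
    rw [frontier_Ioo (by linarith), mu_apply a ((Set.toFinite _).measurableSet)]
    have h1 : volume (({-a, 1} : Set ℝ) ∩ Iio 0) = 0 :=
      measure_mono_null inter_subset_left (Set.Finite.measure_zero (Set.toFinite _) _)
    have h2 : ({-a, 1} : Set ℝ).indicator (1 : ℝ → ℝ≥0∞) 0 = 0 := by
      refine indicator_of_notMem ?_ _
      simp only [mem_insert_iff, mem_singleton_iff, not_or]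
      constructor <;> linarith
    have h3 : ∫⁻ x in ({-a, 1} : Set ℝ) ∩ Ioi 0, w x = 0 :=
      setLIntegral_measure_zero _ _
        (measure_mono_null inter_subset_left (Set.Finite.measure_zero (Set.toFinite _) _))
    rw [h1, h2, h3, mul_zero, add_zero, add_zero]
  · intro A hA hAΩ
    rw [hME]
    unfold M
    by_cases h0 : mu a (A ∩ Iic 0) = 0
    · exact (hcost A hA h0).trans le_add_self
    · refine (one_le_perimeter a hA h0 ?_).trans le_self_add
      have h1 : Iio (-a) ⊆ Iio 0 \ A := by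
        intro x hx
        refine ⟨mem_Iio.2 (by linarith [mem_Iio.1 hx]), fun hxA => ?_⟩
        exact absurd (hAΩ hxA).1 (not_lt.2 (mem_Iio.1 hx).le)
      intro h2
      have h3 := measure_mono_null h1 h2
      rw [Real.volume_Iio] at h3
      exact ENNReal.top_ne_zero h3
  · intro A hA
    rw [hME']
    unfold M'
    by_cases h0 : mu a (A ∩ Iic 0) = 0
    · refine ((hcost A hA h0).trans ?_).trans le_add_self
      gcongr
      exact subset_union_left
    · by_cases h1 : volume (Iio 0 \ A) = 0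
      · have h2 : mu a (A \ Ioo (-a) 1) = ∞ := by
          rw [← top_le_iff]
          have h3 : volume (Iio (-a)) ≤ volume ((A \ Ioo (-a) 1) ∩ Iio 0) := by
            calc volume (Iio (-a))
                ≤ volume (((A \ Ioo (-a) 1) ∩ Iio 0) ∪ (Iio 0 \ A)) := by
                  refine measure_mono fun x hx => ?_
                  have hx0 : x < 0 := by linarith [mem_Iio.1 hx]
                  by_cases hxA : x ∈ A
                  · refine Or.inl ⟨⟨hxA, fun h => ?_⟩, hx0⟩
                    exact absurd h.1 (not_lt.2 (mem_Iio.1 hx).le)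
                  · exact Or.inr ⟨hx0, hxA⟩
              _ ≤ volume ((A \ Ioo (-a) 1) ∩ Iio 0) + volume (Iio 0 \ A) := measure_union_le _ _
              _ = _ := by rw [h1, add_zero]
          rw [Real.volume_Iio] at h3
          rw [mu_apply a (hA.diff measurableSet_Ioo)]
          exact h3.trans (le_self_add.trans le_self_add)
        have h4 : mu a (Ioo (-a) 1 \ A ∪ A \ Ioo (-a) 1) = ∞ := by
          rw [← top_le_iff, ← h2]
          exact measure_mono subset_union_right
        rw [h4, ENNReal.mul_top (ENNReal.ofReal_pos.2 hlam).ne', add_top]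
        exact le_top
      · exact (one_le_perimeter a hA h0 h1).trans le_self_add
  · -- no closed representative
    intro C hC
    by_contra hcon
    have h0 : mu a ((Ioo 0 1 \ C) ∪ (C \ Ioo 0 1)) = 0 := le_antisymm (not_lt.1 hcon) bot_le
    have h1 : mu a (Ioo 0 1 \ C) = 0 := measure_mono_null subset_union_left h0
    have h2 : mu a (C \ Ioo 0 1) = 0 := measure_mono_null subset_union_right h0
    have h3 : Ioo (0 : ℝ) 1 \ C = ∅ := by
      by_contra hne
      have h4 : IsOpen (Ioo (0 : ℝ) 1 \ C) := isOpen_Ioo.sdiff hC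
      exact (mu_pos a h4 (nonempty_iff_ne_empty.2 hne)).ne' h1
    have h4 : Ioo (0 : ℝ) 1 ⊆ C := sdiff_eq_empty.1 h3
    have h5 : (0 : ℝ) ∈ C := by
      have h6 : closure (Ioo (0 : ℝ) 1) ⊆ C := hC.closure_subset_iff.2 h4
      rw [closure_Ioo zero_ne_one] at h6
      exact h6 ⟨le_rfl, zero_le_one⟩
    have h6 : mu a {0} = 0 := by
      refine measure_mono_null ?_ h2
      rintro x hx
      rw [mem_singleton_iff] at hx
      subst hx
      exact ⟨h5, fun h => lt_irrefl _ h.1⟩
    rw [mu_apply a (measurableSet_singleton 0), indicator_of_mem (mem_singleton _)] at h6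
    rw [add_eq_zero, add_eq_zero, Pi.one_apply, mul_one, ENNReal.ofReal_eq_zero] at h6
    linarith [h6.1.2]

end Pool.Agent.Results.MP_fa2b2f_an.NoClosedRepresentative
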